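import Pool.Agent.L7h55.TN.Stm2

set_option autoImplicit false

namespace Pool.Agent.L7h86.TN

open Pool.Agent.L7h55.TN

theorem s_COR : S_COR := by
  intro c q a hq ha hc hqc hD D E hE
  have key : ∀ D E : ℕ, Exc (c * q ^ a) D E → q ∣ E → False := by
    intro D E ⟨hD2, hE2, hco, hDE, h1, h2⟩ hqE
    haveI := Fact.mk hq
    have hqD : ¬ q ∣ D := fun h => by
      have h3 := Nat.dvd_gcd h hqE
      rw [Nat.Coprime] at hco
      rw [hco] at h3
      exact hq.one_lt.ne' (Nat.dvd_one.1 h3)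
    have hDc : D ∣ c := by
      have h3 : D ∣ c * q ^ a := ⟨E, hDE.symm⟩
      have h4 : D.Coprime (q ^ a) := ((Nat.Prime.coprime_iff_not_dvd hq).2 hqD).symm.pow_right a
      exact h4.dvd_of_dvd_mul_right h3
    have hcD : c / D ∣ E := by
      obtain ⟨k, hk⟩ := hDc
      have h3 : E = k * q ^ a := by
        have h4 : D * E = D * (k * q ^ a) := by rw [hDE, hk]; ring
        exact Nat.eq_of_mul_eq_mul_left (by omega) h4
      rw [hk, Nat.mul_div_cancel_left _ (by omega), h3]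
      exact Dvd.intro _ rfl
    have hcop : D.Coprime (c / D) := Nat.Coprime.coprime_dvd_right hcD hco
    apply hD D hD2 hDc hcop
    have h5 : D ^ (2 * (c * q ^ a)) ≡ 1 [MOD q] := h1.of_dvd (Dvd.dvd.mul_left hqE _)
    rw [← ZMod.natCast_eq_natCast_iff] at h5 ⊢
    push_cast at h5 ⊢
    have h6 : ((D : ZMod q)) ^ (2 * (c * q ^ a)) = (D : ZMod q) ^ (2 * c) := by
      rw [show 2 * (c * q ^ a) = q ^ a * (2 * c) by ring, pow_mul, ZMod.pow_card_pow]
    rw [← h6]
    exact h5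
  have hqA : q ∣ D * E := by
    rw [hE.2.2.2.1]
    exact Dvd.dvd.mul_left (dvd_pow_self q ha.ne') c
  rcases (Nat.Prime.dvd_mul hq).1 hqA with h | h
  · exact key E D ⟨hE.2.1, hE.1, hE.2.2.1.symm, by rw [mul_comm]; exact hE.2.2.2.1,
      hE.2.2.2.2.2, hE.2.2.2.2.1⟩ h
  · exact key D E hE h

end Pool.Agent.L7h86.TN
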