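import Pool.Agent.L7h55.TN.Stm2

set_option autoImplicit false

namespace Pool.Agent.L7h86.TN

open Pool.Agent.L7h55.TN Polynomial

lemma hH (f : ℤ[X]) (a b : ℤ) (hb : b ≠ 0) :
    ((H f a b : ℤ) : ℚ) = (b : ℚ) ^ f.natDegree * aeval ((a : ℚ) / b) f := by
  rw [aeval_eq_sum_range, Finset.mul_sum, H]
  push_cast
  refine Finset.sum_congr rfl fun i hi => ?_
  have hi' : i ≤ f.natDegree := by
    have := Finset.mem_range.1 hi
    omega
  have hb' : (b : ℚ) ≠ 0 := by exact_mod_cast hb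
  have h1 : (b : ℚ) ^ f.natDegree = (b : ℚ) ^ (f.natDegree - i) * (b : ℚ) ^ i := by
    rw [← pow_add, Nat.sub_add_cancel hi']
  rw [h1, zsmul_eq_mul, div_pow]
  field_simp

lemma natDegree_T (A : ℕ) (hA : 1 ≤ A) : (T A).natDegree = 2 * A + 2 := by
  have h1 : (T A).natDegree ≤ 2 * A + 2 := by
    unfold T
    refine (natDegree_sub_le _ _).trans (max_le ?_ ?_)
    · refine natDegree_C_mul_le _ _ |>.trans ((natDegree_sub_le _ _).trans (max_le ?_ ?_))
      · rw [natDegree_X_pow]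
      · simp
    · refine natDegree_C_mul_le _ _ |>.trans ((natDegree_sub_le _ _).trans (max_le ?_ ?_))
      · rw [natDegree_X_pow]; omega
      · exact natDegree_X_le.trans (by omega)
  refine le_antisymm h1 (le_natDegree_of_ne_zero ?_)
  unfold T
  rw [coeff_sub, coeff_C_mul, coeff_C_mul, coeff_sub, coeff_sub, coeff_X_pow, coeff_X_pow,
    coeff_one, coeff_X, if_pos rfl, if_neg (by omega), if_neg (by omega), if_neg (by omega)]
  have : (A : ℤ) ≠ 0 := by exact_mod_cast (by omega : A ≠ 0)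
  simpa using this

lemma natDegree_L4 : (L4).natDegree = 4 := by
  unfold L4
  compute_degree!

lemma deg_sum {A : ℕ} {f g : ℤ[X]} (hA : 2 ≤ A) (h : Fac A f g) :
    f.natDegree + g.natDegree + 4 = 2 * A + 2 := by
  have hf : f ≠ 0 := fun h0 => by
    have := h.lf
    rw [h0] at this
    simp at this
  have hg : g ≠ 0 := fun h0 => by
    have := h.lg
    rw [h0] at this
    simp at this
  have hL : L4 ≠ 0 := fun h0 => by
    have := natDegree_L4
    rw [h0] at this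
    simp at this
  have h1 := congrArg natDegree h.eq
  rw [natDegree_mul hL (mul_ne_zero hf hg), natDegree_mul hf hg, natDegree_L4,
    natDegree_T A (by omega)] at h1
  omega

theorem s_HP : S_HP := by
  intro A f g hA h
  have hA0 : (A : ℚ) ≠ 0 := by exact_mod_cast (by omega : A ≠ 0)
  have hb0 : ((A : ℤ) + 1) ≠ 0 := by positivity
  have hbq : ((A : ℚ) + 1) ≠ 0 := by positivity
  have hab : ((A : ℚ) + (A + 1)) ≠ 0 := by positivity
  have e1 := congrArg (aeval (((A : ℤ) : ℚ) / (((A : ℤ) + 1 : ℤ) : ℚ))) h.eq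
  have hsum := deg_sum hA h
  have e2 : ((H f A (A + 1) * H g A (A + 1) : ℤ) : ℚ) = (((A : ℤ) ^ (2 * A + 1) : ℤ) : ℚ) := by
    push_cast
    rw [hH f A (A + 1) hb0, hH g A (A + 1) hb0]
    rw [map_mul, map_mul] at e1
    unfold L4 T at e1
    simp only [map_mul, map_sub, map_add, map_pow, aeval_X, map_one, map_natCast,
      Int.cast_natCast, Int.cast_add, Int.cast_one] at e1 ⊢
    set F := aeval ((A : ℚ) / ((A : ℚ) + 1)) f with hF
    set G := aeval ((A : ℚ) / ((A : ℚ) + 1)) g with hG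
    have e3 : (((A : ℚ) + 1) ^ f.natDegree * F) * (((A : ℚ) + 1) ^ g.natDegree * G) =
        ((A : ℚ) + 1) ^ (f.natDegree + g.natDegree) * (F * G) := by
      rw [pow_add]; ring
    rw [e3]
    have e4 : f.natDegree + g.natDegree = 2 * A - 2 := by omega
    rw [e4]
    obtain ⟨k, rfl⟩ : ∃ k, A = k + 1 := ⟨A - 1, by omega⟩
    have e5 : 2 * (k + 1) - 2 = 2 * k := by omega
    rw [e5]
    push_cast at e1 hA0 hbq hab ⊢
    have e6 : ((k : ℚ) + 1 + 1) ^ (2 * k + 4) ≠ 0 := pow_ne_zero _ hbq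
    have e7 : ((k : ℚ) + 1 + (k + 1 + 1)) *
        (((k : ℚ) + 1 + 1) ^ (2 * k) * (F * G) - ((k : ℚ) + 1) ^ (2 * (k + 1) + 1)) = 0 := by
      have e8 : (((k : ℚ) + 1) / ((k : ℚ) + 1 + 1) - 1) ^ 3 *
          (((k : ℚ) + 1) / ((k : ℚ) + 1 + 1) + 1) =
          -((k : ℚ) + 1 + (k + 1 + 1)) / ((k : ℚ) + 1 + 1) ^ 4 := by
        field_simp
        ring
      have e9 : ((k : ℚ) + 1) * ((((k : ℚ) + 1) / ((k : ℚ) + 1 + 1)) ^ (2 * (k + 1) + 2) - 1) -
          ((k : ℚ) + 1 + 1) * ((((k : ℚ) + 1) / ((k : ℚ) + 1 + 1)) ^ (2 * (k + 1) + 1) -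
            ((k : ℚ) + 1) / ((k : ℚ) + 1 + 1)) =
          -((k : ℚ) + 1) ^ (2 * (k + 1) + 1) * ((k : ℚ) + 1 + (k + 1 + 1)) /
            ((k : ℚ) + 1 + 1) ^ (2 * k + 4) := by
        rw [div_pow, div_pow, show 2 * (k + 1) + 2 = 2 * k + 4 by ring,
          show 2 * (k + 1) + 1 = 2 * k + 3 by ring,
          show ((k : ℚ) + 1 + 1) ^ (2 * k + 4) = ((k : ℚ) + 1 + 1) ^ (2 * k + 3) *
            ((k : ℚ) + 1 + 1) by rw [← pow_succ],
          show ((k : ℚ) + 1) ^ (2 * k + 4) = ((k : ℚ) + 1) ^ (2 * k + 3) *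
            ((k : ℚ) + 1) by rw [← pow_succ]]
        have : ((k : ℚ) + 1 + 1) ^ (2 * k + 3) ≠ 0 := pow_ne_zero _ hbq
        field_simp
        ring
      rw [e8, e9] at e1
      have e10 : ((k : ℚ) + 1 + 1) ^ (2 * k + 4) = ((k : ℚ) + 1 + 1) ^ (2 * k) *
        ((k : ℚ) + 1 + 1) ^ 4 := by rw [← pow_add]
      rw [e10] at e1
      have h4 : ((k : ℚ) + 1 + 1) ^ (2 * k) ≠ 0 := pow_ne_zero _ hbq
      field_simp at e1
      linear_combination (-((k : ℚ) + 1 + (k + 1 + 1))) * e1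
    rcases mul_eq_zero.1 e7 with h7 | h7
    · exact absurd h7 hab
    · linarith
  exact_mod_cast e2

end Pool.Agent.L7h86.TN
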